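import Pool.Agent.X68.IrrCosetRing

/-!
A faithful irreducible coset space `G/H` whose topological group `G` has infinitely many minimal
nontrivial closed normal subgroups.
-/

namespace Pool.Agent.Results.MP_e825aa_al.InfinitelyManyMinimal

/-- `G/H` is an irreducible coset space: `H` is a closed proper subgroup and the only closed
subgroups of `G` containing `H` are `H` and `G`. -/
def IsIrreducibleCosetSpace {G : Type} [Group G] [TopologicalSpace G] (H : Subgroup G) : Prop :=
  IsClosed (H : Set G) ∧ H ≠ ⊤ ∧
    ∀ K : Subgroup G, IsClosed (K : Set G) → H ≤ K → K = H ∨ K = ⊤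

/-- `G/H` is faithful: the intersection of all conjugates `g H g⁻¹` is trivial. -/
def IsFaithfulCosetSpace {G : Type} [Group G] (H : Subgroup G) : Prop :=
  (⨅ g : G, H.map (MulAut.conj g).toMonoidHom) = ⊥

/-- The set of inclusion-minimal nontrivial closed normal subgroups of `G`. -/
def minimalClosedNormal (G : Type) [Group G] [TopologicalSpace G] : Set (Subgroup G) :=
  {M | M.Normal ∧ IsClosed (M : Set G) ∧ M ≠ ⊥ ∧
    ∀ P : Subgroup G, P.Normal → IsClosed (P : Set G) → P ≤ M → P = ⊥ ∨ P = M}

open Pool.Agent.X68.IrrCoset in
/-- There is a (Hausdorff) topological group `G` with a closed subgroup `H` such that `G/H` is a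
faithful irreducible coset space and `G` has infinitely many minimal nontrivial closed normal
subgroups. -/
theorem result : ∃ (G : Type) (_ : Group G) (_ : TopologicalSpace G) (_ : IsTopologicalGroup G)
    (_ : T2Space G) (H : Subgroup G),
    IsIrreducibleCosetSpace H ∧ IsFaithfulCosetSpace H ∧ (minimalClosedNormal G).Infinite := by
  refine ⟨SL3 R, inferInstance, inferInstance, inferInstance, SL3_t2, H data,
    ⟨H_closed data, H_ne_top data, irreducible data⟩, ?_, ?_⟩
  · unfold IsFaithfulCosetSpace
    rw [eq_bot_iff]
    intro c hc
    rw [Subgroup.mem_iInf] at hc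
    rw [Subgroup.mem_bot]
    apply faithful data
    intro g
    obtain ⟨h, hh, hgh⟩ := hc g
    rw [← hgh]
    have : g⁻¹ * ((MulAut.conj g).toMonoidHom h) * g = h := by
      change g⁻¹ * (g * h * g⁻¹) * g = h
      group
    rw [this]
    exact hh
  · apply Set.infinite_of_injective_forall_mem (M_injective data)
    intro m
    refine ⟨inferInstance, M_closed data m, M_ne_bot data m, ?_⟩
    intro P hPn hP hPM
    by_cases h : P = ⊥
    · left; exact h
    · right; exact minimal data m P hP hPn hPM h

end Pool.Agent.Results.MP_e825aa_al.InfinitelyManyMinimal
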